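import Pool.Agent.W91.BH.Stm

/-!
# BH-MOM: moments and translations
-/

set_option autoImplicit false

open MeasureTheory
open scoped ENNReal ContDiff

noncomputable section

namespace Pool.Agent.W565.BH

open Pool.Agent.W91.BH

theorem integrable_mono (n : ℕ) (B : E n → ℝ) (hB : Continuous B) (hs : HasCompactSupport B)
    (g : Fin n → ℕ) : Integrable (fun x : E n => (∏ i, x i ^ g i) * B x) := by
  apply Continuous.integrable_of_hasCompactSupport
  · apply Continuous.mul _ hB
    apply continuous_finset_prod
    intro i _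
    exact (PiLp.continuous_apply 2 (fun _ : Fin n => ℝ) i).pow (g i)
  · exact HasCompactSupport.mul_left hs

theorem mom : S_MOM := by
  intro n N B hB hs hv β h hβ
  classical
  have h1 : ∫ x : E n, (∏ i, x i ^ β i) * B (x - h) =
      ∫ x : E n, (∏ i, (x i + h i) ^ β i) * B x := by
    rw [← integral_sub_right_eq_self (fun x : E n => (∏ i, (x i + h i) ^ β i) * B x) h]
    refine integral_congr_ae (Filter.Eventually.of_forall fun x => ?_)
    show (∏ i, x i ^ β i) * B (x - h) = (∏ i, ((x - h) i + h i) ^ β i) * B (x - h)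
    congr 1
    refine Finset.prod_congr rfl fun i _ => ?_
    rw [PiLp.sub_apply, sub_add_cancel]
  have h2 : ∀ x : E n, (∏ i, (x i + h i) ^ β i) * B x =
      ∑ g ∈ Fintype.piFinset (fun i => Finset.range (β i + 1)),
        (∏ i, (h i ^ (β i - g i) * ((β i).choose (g i) : ℝ))) * ((∏ i, x i ^ g i) * B x) := by
    intro x
    have h3 : (∏ i, (x i + h i) ^ β i) =
        ∑ g ∈ Fintype.piFinset (fun i => Finset.range (β i + 1)),
          ∏ i, (x i ^ g i * h i ^ (β i - g i) * ((β i).choose (g i) : ℝ)) := by
      rw [← Finset.prod_univ_sum (fun i => Finset.range (β i + 1))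
        (fun i m => x i ^ m * h i ^ (β i - m) * ((β i).choose m : ℝ))]
      refine Finset.prod_congr rfl fun i _ => ?_
      rw [add_pow]
    rw [h3, Finset.sum_mul]
    refine Finset.sum_congr rfl fun g _ => ?_
    rw [← mul_assoc, ← Finset.prod_mul_distrib]
    congr 1
    refine Finset.prod_congr rfl fun i _ => ?_
    ring
  rw [h1]
  simp_rw [h2]
  rw [integral_finset_sum _ (fun g _ => (integrable_mono n B hB hs g).const_mul _)]
  simp_rw [integral_const_mul]
  rw [Finset.sum_eq_single β]
  · have h4 : (∏ i, (h i ^ (β i - β i) * ((β i).choose (β i) : ℝ))) = 1 := by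
      apply Finset.prod_eq_one
      intro i _
      rw [Nat.sub_self, pow_zero, Nat.choose_self, Nat.cast_one, mul_one]
    rw [h4, one_mul]
  · intro g hg hne
    rw [Fintype.mem_piFinset] at hg
    have hle : ∀ i, g i ≤ β i := fun i => Nat.lt_succ_iff.1 (Finset.mem_range.1 (hg i))
    have hlt : ∑ i, g i < ∑ i, β i := by
      apply Finset.sum_lt_sum (fun i _ => hle i)
      by_contra hcon
      push Not at hcon
      exact hne (funext fun i => le_antisymm (hle i) (hcon i (Finset.mem_univ i)))
    rw [hv g (lt_of_lt_of_le hlt hβ), mul_zero]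
  · intro hcon
    exfalso
    apply hcon
    rw [Fintype.mem_piFinset]
    intro i
    exact Finset.mem_range.2 (Nat.lt_succ_self _)

end Pool.Agent.W565.BH
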